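import Pool.Agent.TH301.EQ.PubInc

/-!
# Energy equality and the fractional maximal function of the enstrophy

Let `u` be a weak solution of the Navier-Stokes equations in an arbitrary open set `Ω ⊆ ℝ³`; no
energy inequality is assumed. For an interval `J ⊆ [0,T]` put `I(J) = ∫_J ‖∇u‖²`.

* A local estimate for all weak solutions: for almost every `r ∈ J` and all `s ∈ J`,
  `|(u(r) - u(s), u(r))| ≤ (C (I(J)² / |J|)^{1/3} + ν) (I(J) + |J| ‖∇u(r)‖²) + 2 M ∫_J ‖f‖`,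
  where `‖u‖ ≤ M` and `C` is a universal constant. So the kinetic energies at the times `r ∈ J` with
  `|J| ‖∇u(r)‖² ≤ 4 I(J)`, say, differ by at most a multiple of
  `((I(J)² / |J|)^{1/3} + ν) I(J) + M ∫_J ‖f‖`.
* Let `𝓜(t)` be the supremum of `|J|^{-1/2} I(J)` over the intervals `J` which contain `t`. If
  `∫ 𝓜^{2/3} ‖∇u‖² < ∞`, then the energy equality holds. By the inequality of Hardy, Littlewood and
  Sobolev this contains the case `∇u ∈ L^{5/2}(0,T; L²)`, which is known.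
* In particular the energy equality holds if `I(J) ≤ c |J|^{1/2}` for all intervals `J`, with an
  arbitrary constant `c`; this is the scale invariant (type I) condition of Morrey for the
  enstrophy, and it allows infinitely many singular times.
* The energy equality holds if `‖u(s) - u(t)‖ ≤ K (|s - t|^{1/2} + 1 / ‖∇u(s)‖ + 1 / ‖∇u(t)‖)` for
  almost all `s, t`, with an arbitrary constant `K`.

The proof of the local estimate is a closed loop: the trilinear form satisfies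
`|b(u(p), u(p), u(r))| ≤ C a c (a + c)^{1/2} ‖u(p) - u(r)‖^{1/2}`, `a = ‖∇u(p)‖`, `c = ‖∇u(r)‖`, and
`‖u(r) - u(q)‖²` is the sum of `(u(r) - u(q), u(r))` and `(u(q) - u(r), u(q))`, which by the
equations are integrals of such forms. So the mean square of the increments on `J` is bounded by
itself, with a small factor, and by the right hand side above. The energy equality follows by a
chaining argument, which gives the absolute continuity of the kinetic energy, and by the Sard type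
theorem of the library.
-/

set_option autoImplicit false

open MeasureTheory Set
open scoped InnerProductSpace ENNReal

namespace Pool.Agent.Results.MP_a38b17_an.EnstrophyMaximal

open H772R2.NS.Pub

/-- There is a constant `C` such that the following holds. Let `u` be a weak solution of the
Navier-Stokes equations in an open set `Ω ⊆ ℝ³` (no energy inequality is assumed), with gradient `G`
and force `f`.
1. If `‖u‖ ≤ M` on `[0,T]`, then for every interval `[x,y] ⊆ [0,T]`, almost every `r ∈ [x,y]` and all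
   `s ∈ [x,y]`, `|(u(r) - u(s), u(r))| ≤ (C (I² / (y - x))^{1/3} + ν) (I + (y - x) ‖G(r)‖²)
   + 2 M ∫_x^y ‖f‖`, where `I = ∫_x^y ‖G‖²`.
2. If `m ≥ 0`, `m ‖G‖²` is integrable on `(0,T)` and `(∫_x^y ‖G‖²)² ≤ m(t)³ (y - x)` for almost every
   `t ∈ (0,T)` and all `x ≤ t ≤ y`, then the energy defect vanishes on `[0,T]`.
3. The same holds if `∫_x^y ‖G‖² ≤ c (y - x)^{1/2}` for all `x ≤ y`.
4. The same holds if `‖u(s) - u(t)‖ ≤ K (|s - t|^{1/2} + 1 / ‖G(s)‖ + 1 / ‖G(t)‖)` for almost all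
   `s, t ∈ (0,T)`. -/
theorem result : ∃ C : ℝ, ∀ Ω : Set R3, IsOpen Ω → ∀ ν T : ℝ, 0 < ν → 0 < T →
    ∀ (u : ℝ → L2 Ω R3) (G : ℝ → L2 Ω Mat) (f : ℝ → L2 Ω R3), IsWeakSolution Ω ν T u G f →
    (∀ M : ℝ, (∀ t ∈ Icc 0 T, ‖u t‖ ≤ M) → ∀ x y : ℝ, 0 ≤ x → x < y → y ≤ T →
      ∀ᵐ r ∂(volume.restrict (Ioo x y)), ∀ s ∈ Icc x y, |⟪u r - u s, u r⟫_ℝ|
        ≤ (C * ((∫ τ in x..y, ‖G τ‖ ^ 2) ^ 2 / (y - x)) ^ (1 / 3 : ℝ) + ν)
            * ((∫ τ in x..y, ‖G τ‖ ^ 2) + (y - x) * ‖G r‖ ^ 2)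
          + 2 * M * ∫ τ in x..y, ‖f τ‖) ∧
    (∀ m : ℝ → ℝ, (∀ t, 0 ≤ m t) → IntegrableOn (fun t => m t * ‖G t‖ ^ 2) (Ioo 0 T) →
      (∀ᵐ t ∂(volume.restrict (Ioo 0 T)), ∀ x y, 0 ≤ x → x ≤ t → t ≤ y → y ≤ T →
        (∫ τ in x..y, ‖G τ‖ ^ 2) ^ 2 ≤ m t ^ 3 * (y - x)) →
      ∀ t ∈ Icc 0 T, energyDefect ν u G f t = 0) ∧
    (∀ c : ℝ, (∀ x y, 0 ≤ x → x ≤ y → y ≤ T → ∫ τ in x..y, ‖G τ‖ ^ 2 ≤ c * Real.sqrt (y - x)) →
      ∀ t ∈ Icc 0 T, energyDefect ν u G f t = 0) ∧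
    (∀ K : ℝ, 0 ≤ K →
      (∀ᵐ t ∂(volume.restrict (Ioo 0 T)), ∀ᵐ s ∂(volume.restrict (Ioo 0 T)),
        ‖u s - u t‖ ≤ K * (Real.sqrt |s - t| + ‖G s‖⁻¹ + ‖G t‖⁻¹)) →
      ∀ t ∈ Icc 0 T, energyDefect ν u G f t = 0) :=
  ⟨Pool.Agent.TH301.EQ.locC, fun _ hΩ _ _ hν hT _ _ _ hu =>
    ⟨fun _ hM _ _ hx hxy hy => Pool.Agent.TH301.EQ.pub_local hΩ hν.le hT hu hM hx hxy hy,
      fun _ hm0 hmi hm => Pool.Agent.TH301.EQ.pub_max hΩ hν.le hT hu hm0 hmi hm,
      fun _ hc => Pool.Agent.TH301.EQ.pub_morrey hΩ hν.le hT hu hc,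
      fun _ hK hp => Pool.Agent.TH301.EQ.pub_inc hΩ hν.le hT hK hu hp⟩⟩

end Pool.Agent.Results.MP_a38b17_an.EnstrophyMaximal
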